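import Pool.Agent.Lib_helper40.MC.M

/-!
# exceptional curve s2: the certificate
-/

set_option autoImplicit false
set_option maxRecDepth 100000

namespace Pool.Agent.MCX6c

open Pool.Agent.KC72 Pool.Agent.MC

/-- the classes `(f, 1 - f)` -/
def x6c_cls : List (Mo × Mo) := [
  ((false, [.ofNat 5, .ofNat 2, .negSucc 1, .negSucc 1, .negSucc 0, .negSucc 3, .ofNat 1]), (true, [.ofNat 0, .negSucc 0, .negSucc 2, .ofNat 2, .ofNat 1, .negSucc 3, .ofNat 1])),
  ((false, [.negSucc 1, .ofNat 0, .ofNat 0, .ofNat 1, .ofNat 0, .ofNat 0, .ofNat 0]), (false, [.negSucc 1, .negSucc 0, .ofNat 0, .ofNat 1, .ofNat 1, .ofNat 0, .ofNat 0])),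
  ((false, [.ofNat 0, .negSucc 0, .ofNat 1, .ofNat 1, .negSucc 0, .ofNat 2, .negSucc 0]), (false, [.ofNat 2, .ofNat 0, .ofNat 1, .ofNat 0, .negSucc 1, .ofNat 0, .negSucc 0])),
  ((false, [.negSucc 1, .ofNat 0, .ofNat 0, .ofNat 1, .ofNat 0, .ofNat 2, .negSucc 0]), (false, [.negSucc 1, .ofNat 0, .negSucc 0, .ofNat 0, .ofNat 2, .ofNat 0, .ofNat 0])),
  ((true, [.ofNat 0, .ofNat 1, .ofNat 0, .negSucc 0, .ofNat 0, .ofNat 0, .ofNat 0]), (false, [.ofNat 1, .ofNat 1, .ofNat 1, .negSucc 0, .negSucc 0, .ofNat 0, .ofNat 0])),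
  ((true, [.ofNat 1, .ofNat 0, .ofNat 0, .ofNat 0, .ofNat 0, .ofNat 0, .ofNat 1]), (false, [.ofNat 0, .ofNat 0, .ofNat 1, .ofNat 0, .ofNat 0, .ofNat 0, .ofNat 1])),
  ((true, [.negSucc 0, .ofNat 0, .ofNat 0, .ofNat 1, .ofNat 0, .ofNat 0, .ofNat 1]), (false, [.negSucc 0, .ofNat 0, .ofNat 0, .ofNat 0, .ofNat 1, .ofNat 0, .ofNat 1])),
  ((false, [.negSucc 0, .negSucc 0, .ofNat 0, .ofNat 0, .ofNat 1, .ofNat 2, .negSucc 0]), (false, [.negSucc 0, .negSucc 0, .negSucc 0, .ofNat 0, .ofNat 2, .ofNat 0, .ofNat 0])),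
  ((false, [.ofNat 1, .negSucc 0, .ofNat 0, .negSucc 0, .ofNat 1, .ofNat 0, .ofNat 0]), (true, [.ofNat 0, .negSucc 0, .negSucc 0, .negSucc 0, .ofNat 2, .ofNat 0, .negSucc 0])),
  ((false, [.ofNat 0, .negSucc 0, .ofNat 1, .ofNat 1, .negSucc 0, .ofNat 0, .ofNat 0]), (false, [.ofNat 0, .ofNat 0, .ofNat 1, .ofNat 1, .negSucc 1, .ofNat 0, .negSucc 0])),
  ((false, [.ofNat 1, .ofNat 0, .negSucc 0, .negSucc 0, .ofNat 1, .ofNat 0, .ofNat 0]), (true, [.ofNat 0, .negSucc 0, .negSucc 0, .ofNat 0, .ofNat 1, .ofNat 0, .negSucc 0])),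
  ((false, [.ofNat 0, .ofNat 1, .negSucc 0, .ofNat 0, .ofNat 0, .negSucc 1, .ofNat 1]), (true, [.ofNat 1, .ofNat 0, .negSucc 0, .ofNat 0, .ofNat 0, .negSucc 1, .ofNat 0])),
  ((false, [.ofNat 1, .negSucc 0, .ofNat 0, .negSucc 0, .ofNat 1, .ofNat 2, .negSucc 0]), (false, [.ofNat 0, .negSucc 1, .negSucc 0, .ofNat 0, .ofNat 2, .ofNat 0, .negSucc 0])),
  ((true, [.ofNat 1, .ofNat 0, .ofNat 0, .ofNat 0, .ofNat 0, .negSucc 1, .ofNat 2]), (false, [.ofNat 0, .ofNat 1, .ofNat 0, .ofNat 0, .ofNat 0, .negSucc 1, .ofNat 2])),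
  ((false, [.ofNat 0, .ofNat 1, .negSucc 0, .ofNat 0, .ofNat 0, .ofNat 0, .ofNat 0]), (false, [.ofNat 0, .ofNat 0, .negSucc 0, .ofNat 0, .ofNat 0, .ofNat 0, .negSucc 1])),
  ((true, [.ofNat 0, .ofNat 1, .ofNat 0, .negSucc 0, .ofNat 0, .ofNat 2, .negSucc 0]), (false, [.ofNat 0, .ofNat 2, .ofNat 1, .ofNat 0, .negSucc 1, .ofNat 0, .ofNat 0]))]

/-- five term relations -/
def x6c_rels : List Rel := [
  ⟨(1, 0), (9, 1), (2, 1), none, some (3, 1)⟩,
  ⟨(1, 0), (4, 5), (10, 0), some (6, 3), some (5, 3)⟩,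
  ⟨(11, 0), (4, 5), (7, 0), some (6, 2), some (2, 3)⟩,
  ⟨(1, 0), (11, 5), (10, 5), some (7, 3), some (12, 3)⟩,
  ⟨(13, 0), (8, 5), (7, 5), some (6, 3), some (3, 3)⟩,
  ⟨(8, 0), (9, 5), (6, 0), some (10, 3), some (14, 3)⟩,
  ⟨(8, 0), (4, 1), (15, 1), none, some (12, 1)⟩]

/-- the left inverse -/
def x6c_G : List (List (ℕ × ℕ × ℤ)) := [
  [(0, 1, .ofNat 0), (0, 2, .ofNat 0), (0, 3, .negSucc 0), (1, 2, .ofNat 0), (1, 3, .negSucc 0), (1, 4, .ofNat 0), (2, 3, .ofNat 0), (2, 4, .ofNat 0), (3, 4, .ofNat 1)],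
  [(0, 1, .ofNat 0), (0, 2, .ofNat 0), (0, 3, .ofNat 2), (1, 2, .ofNat 0), (1, 3, .negSucc 9), (1, 4, .ofNat 0), (2, 3, .ofNat 0), (2, 4, .ofNat 0), (3, 4, .negSucc 1)],
  [(0, 1, .ofNat 0), (0, 2, .ofNat 0), (0, 3, .negSucc 6), (1, 2, .negSucc 11), (1, 3, .negSucc 6), (1, 4, .negSucc 11), (2, 3, .ofNat 0), (2, 4, .ofNat 0), (3, 4, .ofNat 7)],
  [(0, 1, .ofNat 12), (0, 2, .ofNat 0), (0, 3, .negSucc 15), (1, 2, .negSucc 11), (1, 3, .negSucc 39), (1, 4, .negSucc 35), (2, 3, .negSucc 11), (2, 4, .negSucc 23), (3, 4, .ofNat 16)],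
  [(0, 1, .ofNat 0), (0, 2, .ofNat 0), (0, 3, .negSucc 2), (1, 2, .negSucc 11), (1, 3, .negSucc 2), (1, 4, .ofNat 0), (2, 3, .ofNat 0), (2, 4, .ofNat 12), (3, 4, .ofNat 3)],
  [(0, 1, .ofNat 0), (0, 2, .negSucc 11), (0, 3, .ofNat 11), (1, 2, .negSucc 11), (1, 3, .ofNat 11), (1, 4, .ofNat 12), (2, 3, .ofNat 24), (2, 4, .ofNat 36), (3, 4, .negSucc 10)],
  [(0, 1, .negSucc 11), (0, 2, .ofNat 0), (0, 3, .ofNat 17), (1, 2, .ofNat 0), (1, 3, .ofNat 53), (1, 4, .ofNat 24), (2, 3, .ofNat 24), (2, 4, .ofNat 24), (3, 4, .negSucc 28)],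
  [(0, 1, .negSucc 11), (0, 2, .ofNat 0), (0, 3, .negSucc 9), (1, 2, .ofNat 0), (1, 3, .ofNat 14), (1, 4, .ofNat 12), (2, 3, .ofNat 0), (2, 4, .ofNat 0), (3, 4, .ofNat 10)],
  [(0, 1, .ofNat 12), (0, 2, .ofNat 0), (0, 3, .negSucc 1), (1, 2, .negSucc 11), (1, 3, .negSucc 25), (1, 4, .negSucc 23), (2, 3, .ofNat 0), (2, 4, .negSucc 11), (3, 4, .ofNat 2)]]

/-- the certificate -/
def x6c : RCert where
  n := 7
  r := 5
  m := 9
  N := 16
  cls := x6c_cls
  rels := x6c_rels
  kb := 6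
  ko := 3
  o := 4
  Om := 0x1420851440c61031040c30c31040c51441031041041860c41050841030c40c40c41041050c31040c4104104105143105104104104104105104104104104105104104104104105104104104104105104104104104105104104104104105104104104104105104104104104105
  DG := .ofNat 12
  G := x6c_G
  Q := [(0, 1, 2), (0, 1, 3), (0, 1, 4), (0, 1, 5), (0, 1, 6), (0, 2, 3), (0, 2, 4), (0, 2, 5), (0, 2, 6), (0, 3, 4), (0, 3, 5), (0, 3, 6), (0, 4, 5), (0, 4, 6), (1, 2, 3), (1, 2, 4), (1, 2, 5), (1, 2, 6), (1, 3, 4), (1, 3, 5), (1, 3, 6), (1, 4, 5), (1, 4, 6), (2, 3, 4), (2, 3, 5), (2, 3, 6), (2, 4, 5), (2, 4, 6), (3, 4, 5), (3, 4, 6)]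
  T := [(4, false), (5, false), (5, true), (1, false), (6, false), (6, true), (3, true), (8, false), (1, true), (2, true), (3, false), (7, true), (4, true), (7, false), (8, true), (2, false), (0, true), (0, false), (14, false), (14, true), (9, false), (9, true), (11, true), (13, false), (13, true), (10, false), (10, true), (11, false), (15, false)]

/-- the tables -/
def x6c_t : RTab where
  MA := 5
  B := 32768
  Z := 4096
  P2 := [(0, 1), (0, 2), (0, 3), (1, 2), (1, 3), (1, 4), (2, 3), (2, 4), (3, 4)]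
  MB := [.ofNat 0x1000000000000000fffffff7fff0005,
    .ofNat 0xfffdfffffff7ffffffc0008000000f,
    .ofNat 0xfffffffbffffffefffc0007ffffff6,
    .negSucc 0x1000200000000000fffffffbffffff7,
    .negSucc 32769,
    .ofNat 0x1000200000000000fffffff7fffffff,
    .ofNat 0xffffffffffffffefffe0004000000a,
    .negSucc 0x10001ffffffffffffffffffbffffffa,
    .ofNat 0xfffffffbffffffefffc0007fff8000]
  PM := [.ofNat 0x1ff7ffffffffb001005003fefffffffff6002009fff004005009fffff7ff0ffd00bffeffe007fffffaffb013ffaff600f005000,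
    .ofNat 0xffffffffdfffffffff000000000ffffffffffffffffffffffffffffffffffff000000002000000001ffffffffe000,
    .ofNat 0xffbfffffdfff002002001000001fffffefffffe000002001000fffffeffdffefffffe000001000001ffe003ffe002001ffe000,
    .negSucc 0x1ffbfffffe000000004000000001fffffefffffdfff002000000ffffffffdfffffffffffffffffffffffe003ffc002001ffffff,
    .ofNat 0xfffffeffffffffffff000001000000ffffffffffff000001000000000000fffffefffffeffffffffffff000001000,
    .ofNat 0x1000000000000000000fffffffffffffffffffffffeffffffffffff000000,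
    .ofNat 0x1000000000ffffffffeffeffffff000000000001000000000000000000000000000000000000000000000000000fff000000000,
    .negSucc 0x1ffbfffffffff001000ffffffffffffffffffffffff002000ffffffffeffefff001fff000000fffffffff001fff000000ffffff,
    .ofNat 0xfffffffff000fff001fff000000fffffefffffefffffffff001000000ffefff000000fffffeffffff000fffffe001001001000]
  PR := [0x900089000848004128d8000000,
    0x203020040000000100402018,
    0x487122108184488e06084e3498,
    0xe040101821162008000008c6c0,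
    0x220020208020200220800808,
    0x1000040000100100,
    0x40204820008000000000001800,
    0xe006400000170024b220059100,
    0x40862808820108320220843248]
  S := 30
  p := 5
  a := 10
  c := 7
  d := 3
  XQ := [[0x404010010000100401000040040100c0400c0100c030000400c00000010000300c0200804, 0x1004008010080000c0000003000040040000803008030100200c0000002008010040300803, 0x80000c0000401008040040200c00004040040300c00004020080000000000010040000c03, 0x30000201002000030040101002000030000400c01010030100000002000000000400400, 0, 0x3008000040300c0100c020040100c0200000010000000301000000020100300c0200404, 0],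
  [0x10040040001004004000080100c0101001010010100000802008000000300c040100200802, 0x10010040000001008010100201003000040000100c00008030040000002008000000301000, 0x20000000802008020040201001008030080100c000000100c000000300c020080200801, 0, 0, 0x4040100000c0000402008010100000c0000c040100000c0100400000000000300c0001004, 0x80100c0200c04008040100100801008010000401001010000000000000004020080200001],
  [0x10030040200801010030000400400008040080100003004030100000004010010040000402, 0xc0200c01008010080000401004030100100c010040300001004000000000c040100101002, 0xc020080300802004010000000800008030100000404004000000000001010020080000001, 0xc04008010040200c000000101001010010100400403004020000000001000040100200002, 0xc0300404004010000100c0100800004040100400c01008010040000004004010040001003, 0, 0],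
  [0x20100300404008030080400c02008010000100c04004040080000000000010100400c02, 0xc0200c0300404008030080200c000100100c000100401004000000000200c040100000002, 0x40100404008020000200402010000080300c0300402010020080000003008020080000c01, 0, 0, 0, 0],
  [0x80200c0300001000030000000003004000100100401000020040000004000000000101004, 0x80000c0000c0401001000040100100c0100c030040000403000000000300c0300c0200004, 0x10040040100c02004020000400003000000000301002000040100000001008000000100400, 0, 0, 0x80000c0000401008040000200c00004020040300c00004020080000000000010040000c03, 0x80100c0400001004010000100c0400402000040000300c02008000000100c010040300c03],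
  [0x400010000040200403000030080400c0300c0200400008040100100000004040100300403, 0x10010040400402000000000101003010010080300c0301004010000000000c0300c0100404, 0, 0x1004004010100200c0400003000030000000c0200402004040000000002004000000100000, 0, 0x80400c0100403008040000200c00004020040300c02004020080001000000010040000c03, 0],
  [0x2000010000200c0000400004000080000c0000001008030000400804, 0, 0, 0, 0, 0, 0],
  [0x4000100000c0000402000010000000c0000c040100000c000040000000000030000001004, 0, 0, 0, 0, 0, 0],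
  [0x4000100000c0000403000030000300c00010010100000c000040000000000020000101000, 0, 0, 0, 0, 0, 0]]
  K := 33
  p' := 3
  a' := 10
  c' := 8
  d' := 2
  XT := [[0x1004020000200800000010080100002000000040000402004010080100002004000040100402, 0x8010080100400004020080100802000000000100400004000040100401008010000000402, 0x100802000020040000000004010000000800004020000100801008020080000402008020080000002, 0x100801008000040100400004000040200801000000080100402004010000200400004020040200800, 0, 0x200800000000000200800000000000000000008020000000801008000000100000004020000000401, 0x401004010000100400008020000000400008000080200400004010040100801004020040200400],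
  [0x10040000400000020080200801000000040000400000020040100001000020040200401, 0x10080000800008020080000800000000000200801004010040100801008000040200800, 0x40000800008000000100002000000080200402004020000100800008020040200801, 0x20080000800000010040100402000000080000800000010080200002000010000100802, 0x10080000800008020080000800000000000200801004010040200801008000000200800, 0, 0x80100400004000000200001000000040100801008010000000400004010040000401],
  [0x80100400008000080000800000000040100001008010080100801008010000200400, 0x80200802004020040000001000000080200401004020040200402008020000100800, 0x80200801008020040000002000000080100801004020040200800000020000000801, 0x40100400004000080000400000000080200001004010000100400004010000000402, 0x80100400004000080000400000000040200801008010000100400004010000000400, 0x100401000010080000402000000040000402004010080100002008010000100402, 0x80200801004020040000802000000080200401004020040200402008020000100801],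
  [0x8000000000000000000000100800000000000000800008000000000000, 0x2000000000000000000000000100000000000000000000000000000000000, 0x8000000000000000000000100800000000000000802008000000000000, 0x4000000000000000000000200400000010000000400004000000000000, 0, 0, 0],
  [0x1000000000000000000000000000002, 1, 0, 0, 0, 0, 0],
  [1024, 0, 0x100000, 0, 0, 0, 0],
  [0x8000000000000, 0, 0, 0x8010000000000, 0, 0, 0],
  [0x800000000000000000000000000000000, 0, 0x400008000000000000000000000000000, 0, 0, 0, 0],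
  [0x200000000000000000400000000000000000, 0x200000000000000000000000000000000000, 0, 0, 0, 0, 0]]

/-- an explicit class -/
def x6c_l0 : List Tm := [
  ⟨1, 0, [.ofNat 0, .ofNat 0, .ofNat 8, .negSucc 6, .ofNat 2, .ofNat 8, .negSucc 1]⟩,
  ⟨4, 0, [.ofNat 0, .ofNat 0, .ofNat 1, .ofNat 0, .ofNat 0, .negSucc 3, .ofNat 1]⟩,
  ⟨12, 0, [.ofNat 0, .ofNat 0, .ofNat 0, .negSucc 1, .ofNat 2, .ofNat 0, .ofNat 0]⟩,
  ⟨6, 0, [.ofNat 0, .ofNat 0, .ofNat 1, .ofNat 0, .ofNat 0, .ofNat 4, .ofNat 1]⟩,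
  ⟨0, 0, [.ofNat 0, .negSucc 0, .ofNat 0, .ofNat 0, .ofNat 1, .ofNat 0, .ofNat 0]⟩]

/-- its coordinates -/
def x6c_v0 : List (List ℤ) := [
  [.ofNat 0, .negSucc 0, .ofNat 0, .ofNat 0, .ofNat 1, .ofNat 0, .ofNat 0],
  [.ofNat 0, .ofNat 0, .ofNat 8, .negSucc 2, .negSucc 1, .ofNat 8, .negSucc 1],
  [.ofNat 0, .ofNat 0, .ofNat 0, .negSucc 1, .ofNat 2, .ofNat 0, .ofNat 0],
  [.ofNat 0, .ofNat 0, .ofNat 0, .ofNat 0, .ofNat 0, .ofNat 0, .ofNat 0],
  [.ofNat 0, .ofNat 0, .ofNat 1, .ofNat 0, .ofNat 0, .negSucc 3, .ofNat 1],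
  [.ofNat 0, .ofNat 0, .ofNat 0, .ofNat 2, .negSucc 1, .ofNat 0, .ofNat 0],
  [.ofNat 0, .ofNat 0, .ofNat 1, .negSucc 3, .ofNat 4, .ofNat 4, .ofNat 1],
  [.ofNat 0, .ofNat 0, .ofNat 0, .negSucc 3, .ofNat 4, .ofNat 0, .ofNat 0],
  [.ofNat 0, .ofNat 0, .ofNat 0, .ofNat 0, .ofNat 0, .ofNat 0, .ofNat 0]]

/-- an explicit class -/
def x6c_l1 : List Tm := [
  ⟨13, 0, [.ofNat 15, .ofNat 0, .ofNat 0, .negSucc 9, .ofNat 0, .ofNat 2, .ofNat 0]⟩,
  ⟨1, 0, [.negSucc 9, .ofNat 0, .ofNat 7, .ofNat 0, .ofNat 0, .ofNat 12, .negSucc 2]⟩,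
  ⟨11, 0, [.ofNat 0, .ofNat 0, .ofNat 0, .ofNat 2, .negSucc 1, .ofNat 4, .ofNat 0]⟩,
  ⟨9, 0, [.ofNat 0, .ofNat 21, .ofNat 0, .negSucc 4, .negSucc 8, .ofNat 4, .ofNat 0]⟩,
  ⟨6, 0, [.negSucc 7, .ofNat 8, .ofNat 0, .ofNat 0, .ofNat 0, .ofNat 8, .negSucc 1]⟩,
  ⟨10, 0, [.negSucc 15, .ofNat 0, .negSucc 7, .ofNat 8, .ofNat 0, .ofNat 0, .negSucc 22]⟩,
  ⟨0, 0, [.ofNat 1, .negSucc 1, .ofNat 0, .ofNat 0, .ofNat 1, .ofNat 0, .ofNat 0]⟩]

/-- its coordinates -/
def x6c_v1 : List (List ℤ) := [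
  [.ofNat 1, .negSucc 1, .ofNat 0, .ofNat 0, .ofNat 1, .ofNat 0, .ofNat 0],
  [.ofNat 6, .negSucc 20, .ofNat 15, .negSucc 2, .ofNat 9, .ofNat 8, .ofNat 20],
  [.ofNat 0, .ofNat 21, .ofNat 0, .negSucc 6, .negSucc 6, .ofNat 0, .ofNat 0],
  [.negSucc 14, .ofNat 21, .ofNat 0, .ofNat 5, .negSucc 8, .ofNat 2, .ofNat 0],
  [.ofNat 16, .ofNat 0, .ofNat 8, .negSucc 9, .ofNat 2, .negSucc 3, .ofNat 23],
  [.ofNat 16, .ofNat 0, .ofNat 8, .negSucc 7, .ofNat 0, .ofNat 0, .ofNat 23],
  [.negSucc 8, .ofNat 8, .negSucc 7, .negSucc 3, .ofNat 2, .ofNat 6, .negSucc 24],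
  [.ofNat 15, .ofNat 0, .ofNat 0, .negSucc 11, .ofNat 2, .negSucc 1, .ofNat 0],
  [.negSucc 14, .ofNat 0, .ofNat 0, .ofNat 10, .ofNat 0, .negSucc 1, .ofNat 0]]

/-- an explicit class -/
def x6c_l2 : List Tm := [
  ⟨6, 0, [.negSucc 7, .negSucc 15, .ofNat 16, .ofNat 16, .negSucc 23, .ofNat 32, .negSucc 39]⟩,
  ⟨7, 0, [.ofNat 8, .ofNat 16, .negSucc 15, .negSucc 15, .ofNat 24, .negSucc 31, .ofNat 40]⟩,
  ⟨10, 0, [.negSucc 7, .negSucc 15, .ofNat 16, .ofNat 16, .negSucc 23, .ofNat 32, .negSucc 39]⟩,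
  ⟨0, 0, [.ofNat 1, .ofNat 2, .negSucc 1, .negSucc 1, .ofNat 3, .negSucc 3, .ofNat 5]⟩]

/-- its coordinates -/
def x6c_v2 : List (List ℤ) := [
  [.ofNat 1, .ofNat 2, .negSucc 1, .negSucc 1, .ofNat 3, .negSucc 3, .ofNat 5],
  [.ofNat 8, .ofNat 16, .negSucc 15, .negSucc 15, .ofNat 24, .negSucc 31, .ofNat 40],
  [.ofNat 0, .ofNat 0, .ofNat 0, .ofNat 0, .ofNat 0, .ofNat 0, .ofNat 0],
  [.ofNat 0, .ofNat 0, .ofNat 0, .ofNat 0, .ofNat 0, .ofNat 0, .ofNat 0],
  [.ofNat 8, .ofNat 16, .negSucc 15, .negSucc 15, .ofNat 24, .negSucc 31, .ofNat 40],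
  [.ofNat 8, .ofNat 16, .negSucc 15, .negSucc 15, .ofNat 24, .negSucc 31, .ofNat 40],
  [.negSucc 15, .negSucc 31, .ofNat 32, .ofNat 32, .negSucc 47, .ofNat 64, .negSucc 79],
  [.ofNat 8, .ofNat 16, .negSucc 15, .negSucc 15, .ofNat 24, .negSucc 31, .ofNat 40],
  [.ofNat 0, .ofNat 0, .ofNat 0, .ofNat 0, .ofNat 0, .ofNat 0, .ofNat 0]]

/-- an explicit class -/
def x6c_l3 : List Tm := [
  ⟨6, 0, [.ofNat 0, .negSucc 23, .negSucc 7, .negSucc 15, .ofNat 24, .ofNat 32, .negSucc 39]⟩,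
  ⟨7, 0, [.ofNat 0, .ofNat 24, .ofNat 8, .ofNat 16, .negSucc 23, .negSucc 31, .ofNat 40]⟩,
  ⟨10, 0, [.ofNat 0, .negSucc 23, .negSucc 7, .negSucc 15, .ofNat 24, .ofNat 32, .negSucc 39]⟩,
  ⟨0, 0, [.ofNat 0, .ofNat 3, .ofNat 1, .ofNat 2, .negSucc 2, .negSucc 3, .ofNat 5]⟩]

/-- its coordinates -/
def x6c_v3 : List (List ℤ) := [
  [.ofNat 0, .ofNat 3, .ofNat 1, .ofNat 2, .negSucc 2, .negSucc 3, .ofNat 5],
  [.ofNat 0, .ofNat 24, .ofNat 8, .ofNat 16, .negSucc 23, .negSucc 31, .ofNat 40],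
  [.ofNat 0, .ofNat 0, .ofNat 0, .ofNat 0, .ofNat 0, .ofNat 0, .ofNat 0],
  [.ofNat 0, .ofNat 0, .ofNat 0, .ofNat 0, .ofNat 0, .ofNat 0, .ofNat 0],
  [.ofNat 0, .ofNat 24, .ofNat 8, .ofNat 16, .negSucc 23, .negSucc 31, .ofNat 40],
  [.ofNat 0, .ofNat 24, .ofNat 8, .ofNat 16, .negSucc 23, .negSucc 31, .ofNat 40],
  [.ofNat 0, .negSucc 47, .negSucc 15, .negSucc 31, .ofNat 48, .ofNat 64, .negSucc 79],
  [.ofNat 0, .ofNat 24, .ofNat 8, .ofNat 16, .negSucc 23, .negSucc 31, .ofNat 40],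
  [.ofNat 0, .ofNat 0, .ofNat 0, .ofNat 0, .ofNat 0, .ofNat 0, .ofNat 0]]

/-- the explicit classes -/
def x6c_ll : List (List Tm) := [x6c_l0, x6c_l1, x6c_l2, x6c_l3]

/-- their coordinates -/
def x6c_vl : List (List (List ℤ)) := [x6c_v0, x6c_v1, x6c_v2, x6c_v3]

end Pool.Agent.MCX6c
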