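import Pool.Agent.Lib_helper40.MC.X6c.Q
import Pool.Agent.Lib_helper40.MC.X6c.T

/-!
# exceptional curve s2: all checks
-/

set_option autoImplicit false
set_option maxRecDepth 100000

namespace Pool.Agent.MCX6c

open Pool.Agent.KC72 Pool.Agent.MC

theorem x6c_0 : NumX x6c x6c_t x6c_ll.length := by decide +kernel

theorem x6c_om : xm x6c.kb x6c.ko (x6c.m * x6c.N) x6c.Om = true := by decide +kernel

theorem x6c_b : cB x6c = true := by decide +kernel

theorem x6c_r0 : blk (cR x6c) x6c.rels 60 0 = true := by decide +kernel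

theorem x6c_r' : ∀ k < 1, blk (cR x6c) x6c.rels 60 k = true
  | 0, _ => x6c_r0
  | k + 1, h => absurd h (by omega)

theorem x6c_g : allI (fun c g => cG x6c.DG x6c_t.B x6c_t.MA x6c_t.P2 x6c_t.MB c g) x6c.G 0 = true := by decide +kernel

theorem x6c_g' : x6c.toCert.chk3' = true := by decide +kernel

theorem x6c_k1 : (x6c.cls.take x6c.m).map (prF x6c_t.p x6c.n x6c.r) = x6c_t.PR := by decide +kernel

theorem x6c_k2 : (x6c.cls.take x6c.m).map (pkw (Int.ofNat x6c_t.Z) (Int.ofNat (Nat.pow x6c_t.Z x6c.n)) x6c.r) = x6c_t.PM := by decide +kernel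

theorem x6c_k3 : x6c_t.P2.map (fun x => pmb (Int.ofNat x6c_t.B) x.1 x.2 (x6c.cls.take x6c.m)) = x6c_t.MB := by decide +kernel

theorem x6c_e : x6c.cls.all (fun e => bdE x6c_t.MA x6c.n e.1.2 && bdE x6c_t.MA x6c.n e.2.2) = true := by decide +kernel

theorem x6c_xq : x6c_t.XQ.all (fun X => X.all (xm x6c_t.a x6c_t.d x6c_t.S)) = true := by decide +kernel

theorem x6c_xt : x6c_t.XT.all (fun X => X.all (xm x6c_t.a' x6c_t.d' x6c_t.K)) = true := by decide +kernel

theorem x6c_d0_0 : blk (cD x6c x6c_v0) x6c.Q 40 0 = true := by decide +kernel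

theorem x6c_d0_' : ∀ k < 1, blk (cD x6c x6c_v0) x6c.Q 40 k = true
  | 0, _ => x6c_d0_0
  | k + 1, h => absurd h (by omega)

theorem x6c_d1_0 : blk (cD x6c x6c_v1) x6c.Q 40 0 = true := by decide +kernel

theorem x6c_d1_' : ∀ k < 1, blk (cD x6c x6c_v1) x6c.Q 40 k = true
  | 0, _ => x6c_d1_0
  | k + 1, h => absurd h (by omega)

theorem x6c_d2_0 : blk (cD x6c x6c_v2) x6c.Q 40 0 = true := by decide +kernel

theorem x6c_d2_' : ∀ k < 1, blk (cD x6c x6c_v2) x6c.Q 40 k = true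
  | 0, _ => x6c_d2_0
  | k + 1, h => absurd h (by omega)

theorem x6c_d3_0 : blk (cD x6c x6c_v3) x6c.Q 40 0 = true := by decide +kernel

theorem x6c_d3_' : ∀ k < 1, blk (cD x6c x6c_v3) x6c.Q 40 k = true
  | 0, _ => x6c_d3_0
  | k + 1, h => absurd h (by omega)

theorem x6c_x : allI (fun s L => cL x6c x6c_t (x6c_vl.getD s []) s L) x6c_ll 0 = true := by decide +kernel

/-- all checks -/
theorem x6c_ok : ROkX x6c x6c_ll :=
  rOkX_of (A := x6c_t) (VL := x6c_vl) (l4 := 60) (n4 := 1) (lQ := 40) (nQ := 1) (lT := 40) (nT := 1) rfl x6c_0 x6c_om x6c_b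
    (by decide) (by decide +kernel) x6c_r' x6c_g x6c_g' ⟨x6c_k1, x6c_k2, x6c_k3⟩ x6c_e x6c_xq x6c_xt (by decide) (by decide +kernel) x6c_q'
    (by decide) (by decide +kernel) x6c_t' x6c_x
    (List.forall_mem_cons.2 ⟨x6c_d0_', (List.forall_mem_cons.2 ⟨x6c_d1_', (List.forall_mem_cons.2 ⟨x6c_d2_', (List.forall_mem_cons.2 ⟨x6c_d3_', (List.forall_mem_nil _)⟩)⟩)⟩)⟩)

end Pool.Agent.MCX6c
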