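import Pool.Agent.Lib_helper40.MC.X6c.Dat

/-!
# exceptional curve s2: the coordinates
-/

set_option autoImplicit false
set_option maxRecDepth 100000

namespace Pool.Agent.MCX6c

open Pool.Agent.KC72 Pool.Agent.MC

theorem x6c_q0 : blk (cQ x6c x6c_t) x6c.Q 40 0 = true := by decide +kernel

theorem x6c_q' : ∀ k < 1, blk (cQ x6c x6c_t) x6c.Q 40 k = true
  | 0, _ => x6c_q0
  | k + 1, h => absurd h (by omega)

end Pool.Agent.MCX6c
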